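import Mathlib

/-! Local norms of polynomials and the passage from local to global height bounds. -/

open MvPolynomial Height Height.AdmissibleAbsValues

namespace D4P91

variable {L : Type*} [Field L] {ι ι' : Type*}

/-- Largest absolute value of a coefficient. -/
noncomputable def nv (v : AbsoluteValue L ℝ) (P : MvPolynomial ι L) : ℝ :=
  ⨆ m : P.support, v (coeff m.1 P)

/-- Sum of the absolute values of the coefficients. -/
noncomputable def l1 (v : AbsoluteValue L ℝ) (P : MvPolynomial ι L) : ℝ :=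
  ∑ m ∈ P.support, v (coeff m P)

lemma nv_nonneg (v : AbsoluteValue L ℝ) (P : MvPolynomial ι L) : 0 ≤ nv v P :=
  Real.iSup_nonneg fun _ => v.nonneg _

lemma le_nv (v : AbsoluteValue L ℝ) (P : MvPolynomial ι L) (m : ι →₀ ℕ) :
    v (coeff m P) ≤ nv v P := by
  by_cases h : m ∈ P.support
  · exact Finite.le_ciSup_of_le (f := fun m : P.support => v (coeff m.1 P)) ⟨m, h⟩ le_rfl
  · rw [notMem_support_iff.1 h, v.map_zero]; exact nv_nonneg v P

lemma nv_le (v : AbsoluteValue L ℝ) {P : MvPolynomial ι L} {B : ℝ} (hB : 0 ≤ B)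
    (h : ∀ m, v (coeff m P) ≤ B) : nv v P ≤ B :=
  Real.iSup_le (fun m => h m.1) hB

lemma exists_nv (v : AbsoluteValue L ℝ) {P : MvPolynomial ι L} (hP : P ≠ 0) :
    ∃ m ∈ P.support, v (coeff m P) = nv v P := by
  obtain ⟨m, hm, h⟩ := Finset.exists_max_image P.support (fun m => v (coeff m P))
    (support_nonempty.2 hP)
  refine ⟨m, hm, le_antisymm (le_nv v P m) (Real.iSup_le (fun k => h k.1 k.2) (v.nonneg _))⟩

lemma nv_pos (v : AbsoluteValue L ℝ) {P : MvPolynomial ι L} (hP : P ≠ 0) : 0 < nv v P := by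
  obtain ⟨m, hm, h⟩ := exists_nv v hP
  rw [← h]; exact v.pos (mem_support_iff.1 hm)

lemma nv_zero (v : AbsoluteValue L ℝ) : nv v (0 : MvPolynomial ι L) = 0 :=
  le_antisymm (nv_le v le_rfl fun m => by simp) (nv_nonneg _ _)

lemma nv_rename (v : AbsoluteValue L ℝ) {f : ι → ι'} (hf : Function.Injective f)
    (P : MvPolynomial ι L) : nv v (rename f P) = nv v P := by
  refine le_antisymm (nv_le v (nv_nonneg _ _) fun m => ?_) (nv_le v (nv_nonneg _ _) fun m => ?_)
  · by_cases h : coeff m (rename f P) = 0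
    · rw [h, v.map_zero]; exact nv_nonneg _ _
    · obtain ⟨u, rfl, -⟩ := coeff_rename_ne_zero f P m h
      rw [coeff_rename_mapDomain f hf]; exact le_nv _ _ _
  · rw [← coeff_rename_mapDomain f hf]; exact le_nv _ _ _

lemma l1_nonneg (v : AbsoluteValue L ℝ) (P : MvPolynomial ι L) : 0 ≤ l1 v P :=
  Finset.sum_nonneg fun _ _ => v.nonneg _

lemma l1_eq (v : AbsoluteValue L ℝ) (P : MvPolynomial ι L) {s : Finset (ι →₀ ℕ)}
    (hs : P.support ⊆ s) : l1 v P = ∑ m ∈ s, v (coeff m P) :=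
  Finset.sum_subset hs fun m _ hm => by rw [notMem_support_iff.1 hm, v.map_zero]

lemma sum_le_l1 (v : AbsoluteValue L ℝ) (P : MvPolynomial ι L) (s : Finset (ι →₀ ℕ)) :
    ∑ m ∈ s, v (coeff m P) ≤ l1 v P := by
  classical
  rw [l1_eq v P (s := P.support ∪ s) Finset.subset_union_left]
  exact Finset.sum_le_sum_of_subset_of_nonneg Finset.subset_union_right fun _ _ _ => v.nonneg _

lemma nv_le_l1 (v : AbsoluteValue L ℝ) (P : MvPolynomial ι L) : nv v P ≤ l1 v P :=
  nv_le v (l1_nonneg _ _) fun m => by simpa using sum_le_l1 v P {m}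

lemma l1_le_card (v : AbsoluteValue L ℝ) (P : MvPolynomial ι L) :
    l1 v P ≤ P.support.card * nv v P := by
  simpa [l1] using Finset.sum_le_card_nsmul P.support (fun m => v (coeff m P)) (nv v P)
    fun m _ => le_nv v P m

lemma l1_zero (v : AbsoluteValue L ℝ) : l1 v (0 : MvPolynomial ι L) = 0 := by simp [l1]

lemma l1_add (v : AbsoluteValue L ℝ) (P Q : MvPolynomial ι L) :
    l1 v (P + Q) ≤ l1 v P + l1 v Q := by
  calc l1 v (P + Q) ≤ ∑ m ∈ (P + Q).support, (v (coeff m P) + v (coeff m Q)) :=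
        Finset.sum_le_sum fun m _ => by rw [coeff_add]; exact v.add_le _ _
    _ ≤ _ := by rw [Finset.sum_add_distrib]; exact add_le_add (sum_le_l1 _ _ _) (sum_le_l1 _ _ _)

lemma l1_neg (v : AbsoluteValue L ℝ) (P : MvPolynomial ι L) : l1 v (-P) = l1 v P := by
  simp [l1, coeff_neg]

lemma l1_sum (v : AbsoluteValue L ℝ) {α : Type*} (s : Finset α) (P : α → MvPolynomial ι L) :
    l1 v (∑ a ∈ s, P a) ≤ ∑ a ∈ s, l1 v (P a) := by
  classical
  induction s using Finset.induction_on with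
  | empty => simp [l1_zero]
  | insert a s ha ih =>
    rw [Finset.sum_insert ha, Finset.sum_insert ha]
    exact (l1_add _ _ _).trans (by linarith)

lemma l1_monomial (v : AbsoluteValue L ℝ) (m : ι →₀ ℕ) (c : L) :
    l1 v (monomial m c) = v c := by
  classical
  rw [l1_eq v _ (s := {m}) support_monomial_subset]; simp

lemma l1_one (v : AbsoluteValue L ℝ) : l1 v (1 : MvPolynomial ι L) = 1 := by
  have := l1_monomial v (0 : ι →₀ ℕ) 1
  simpa using this

lemma l1_mul (v : AbsoluteValue L ℝ) (P Q : MvPolynomial ι L) :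
    l1 v (P * Q) ≤ l1 v P * l1 v Q := by
  have h : P * Q = ∑ a ∈ P.support, ∑ b ∈ Q.support,
      monomial (a + b) (coeff a P * coeff b Q) := by
    conv_lhs => rw [P.as_sum, Q.as_sum]
    rw [Finset.sum_mul_sum]
    simp only [monomial_mul]
  rw [h]
  refine (l1_sum _ _ _).trans ?_
  unfold l1
  rw [Finset.sum_mul_sum]
  refine Finset.sum_le_sum fun a _ => (l1_sum _ _ _).trans (le_of_eq ?_)
  simp only [l1_monomial, map_mul]

lemma card_support_le [Fintype ι] (P : MvPolynomial ι L) :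
    P.support.card ≤ 2 ^ ∑ a, degreeOf a P := by
  classical
  have h : P.support.card ≤ (Fintype.piFinset fun a => Finset.range (degreeOf a P + 1)).card := by
    refine Finset.card_le_card_of_injOn (fun m => (m : ι → ℕ)) (fun m hm => ?_)
      (fun a _ b _ h => DFunLike.coe_injective h)
    simp only [Finset.mem_coe, Fintype.mem_piFinset, Finset.mem_range]
    exact fun a => Nat.lt_succ_of_le (monomial_le_degreeOf a hm)
  refine h.trans ?_
  rw [Fintype.card_piFinset, ← Finset.prod_pow_eq_pow_sum]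
  refine Finset.prod_le_prod' fun a _ => ?_
  rw [Finset.card_range]
  exact Nat.lt_two_pow_self

lemma l1_le_nv [Fintype ι] (v : AbsoluteValue L ℝ) (P : MvPolynomial ι L) {D : ℕ}
    (hD : ∑ a, degreeOf a P ≤ D) : l1 v P ≤ 2 ^ D * nv v P := by
  refine (l1_le_card v P).trans (mul_le_mul_of_nonneg_right ?_ (nv_nonneg _ _))
  exact_mod_cast (card_support_le P).trans (Nat.pow_le_pow_right two_pos hD)

lemma nv_add_le {v : AbsoluteValue L ℝ} (hv : IsNonarchimedean v) (P Q : MvPolynomial ι L) :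
    nv v (P + Q) ≤ max (nv v P) (nv v Q) :=
  nv_le v (le_max_of_le_left (nv_nonneg _ _)) fun m => by
    rw [coeff_add]; exact (hv _ _).trans (max_le_max (le_nv _ _ _) (le_nv _ _ _))

lemma nv_neg (v : AbsoluteValue L ℝ) (P : MvPolynomial ι L) : nv v (-P) = nv v P :=
  le_antisymm (nv_le v (nv_nonneg _ _) fun m => by rw [coeff_neg, v.map_neg]; exact le_nv _ _ _)
    (nv_le v (nv_nonneg _ _) fun m => by rw [← v.map_neg, ← coeff_neg]; exact le_nv _ _ _)

lemma abv_sum_le {v : AbsoluteValue L ℝ} (hv : IsNonarchimedean v) {α : Type*} (s : Finset α)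
    (f : α → L) {B : ℝ} (hB : 0 ≤ B) (h : ∀ a ∈ s, v (f a) ≤ B) : v (∑ a ∈ s, f a) ≤ B := by
  classical
  induction s using Finset.induction_on with
  | empty => simpa using hB
  | insert a s ha ih =>
    rw [Finset.sum_insert ha]
    exact (hv _ _).trans (max_le (h a (Finset.mem_insert_self _ _))
      (ih fun b hb => h b (Finset.mem_insert_of_mem hb)))

lemma nv_mul_le {v : AbsoluteValue L ℝ} (hv : IsNonarchimedean v) (P Q : MvPolynomial ι L) :
    nv v (P * Q) ≤ nv v P * nv v Q := by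
  classical
  have h0 := mul_nonneg (nv_nonneg v P) (nv_nonneg v Q)
  refine nv_le v h0 fun m => ?_
  rw [coeff_mul]
  refine abv_sum_le hv _ _ h0 fun p _ => ?_
  rw [map_mul]
  exact mul_le_mul (le_nv _ _ _) (le_nv _ _ _) (v.nonneg _) (nv_nonneg _ _)

lemma nv_one_le (v : AbsoluteValue L ℝ) : nv v (1 : MvPolynomial ι L) ≤ 1 :=
  (nv_le_l1 v 1).trans (l1_one v).le

section glob

variable [AdmissibleAbsValues L]

/-- Projective logarithmic height of the coefficient vector. -/
noncomputable def hP (P : MvPolynomial ι L) : ℝ :=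
  logHeight fun m : P.support => coeff m.1 P

/-- Sum of a function over all places. -/
noncomputable def LG (f : AbsoluteValue L ℝ → ℝ) : ℝ :=
  ((archAbsVal (K := L)).map f).sum + ∑ᶠ v : nonarchAbsVal (K := L), f v.1

/-- Finite support over the finite places. -/
def FS (f : AbsoluteValue L ℝ → ℝ) : Prop :=
  (Function.support fun v : nonarchAbsVal (K := L) => f v.1).Finite

lemma hP_nonneg (P : MvPolynomial ι L) : 0 ≤ hP P := logHeight_nonneg _

lemma nv_mulSupport {P : MvPolynomial ι L} (hP : P ≠ 0) :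
    (Function.mulSupport fun v : nonarchAbsVal (K := L) => nv v.1 P).Finite := by
  refine Set.Finite.subset (Set.Finite.biUnion P.support.finite_toSet fun m hm =>
    hasFiniteMulSupport (K := L) (mem_support_iff.1 hm)) fun v hv => ?_
  obtain ⟨m, hm, h⟩ := exists_nv v.1 hP
  simp only [Set.mem_iUnion]
  exact ⟨m, hm, fun h1 => hv (h.symm.trans h1)⟩

lemma FS_nv {P : MvPolynomial ι L} (hP : P ≠ 0) : FS fun v => Real.log (nv v P) :=
  (nv_mulSupport hP).subset fun v hv h1 => hv (by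
    have h2 : nv v.1 P = 1 := h1
    simp [h2])

lemma hP_eq {P : MvPolynomial ι L} (h : P ≠ 0) : hP P = LG fun v => Real.log (nv v P) := by
  have h0 : (fun m : P.support => coeff m.1 P) ≠ 0 := by
    obtain ⟨m, hm⟩ := support_nonempty.2 h
    exact fun h1 => mem_support_iff.1 hm (congrFun h1 ⟨m, hm⟩)
  have h1 : 0 < ((archAbsVal (K := L)).map fun v => nv v P).prod :=
    Multiset.prod_pos fun a ha => by
      obtain ⟨v, -, rfl⟩ := Multiset.mem_map.1 ha
      exact nv_pos v h
  have h2 : 0 < ∏ᶠ v : nonarchAbsVal (K := L), nv v.1 P :=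
    finprod_induction (fun a => 0 < a) one_pos (fun _ _ => mul_pos) fun v => nv_pos v.1 h
  unfold hP LG
  rw [logHeight_eq_log_mulHeight, mulHeight_eq h0]
  change Real.log ((archAbsVal.map fun v => nv v P).prod *
    ∏ᶠ v : nonarchAbsVal (K := L), nv v.1 P) = _
  rw [Real.log_mul h1.ne' h2.ne', Real.log_multiset_prod, Multiset.map_map,
    Real.log_finprod (f := fun v : nonarchAbsVal (K := L) => nv v.1 P) fun v => nv_pos v.1 h]
  · rfl
  · intro a ha
    obtain ⟨v, -, rfl⟩ := Multiset.mem_map.1 ha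
    exact (nv_pos v h).ne'

lemma hP_rename {f : ι → ι'} (hf : Function.Injective f) {P : MvPolynomial ι L} (h : P ≠ 0) :
    hP (rename f P) = hP P := by
  rw [hP_eq h, hP_eq (fun h1 => h (rename_injective f hf (by simpa using h1)))]
  simp only [nv_rename _ hf]

lemma FS.sum {α : Type*} (s : Finset α) {f : α → AbsoluteValue L ℝ → ℝ} (h : ∀ a ∈ s, FS (f a)) :
    FS fun v => ∑ a ∈ s, f a v := by
  refine Set.Finite.subset (Set.Finite.biUnion s.finite_toSet h) fun v hv => ?_
  obtain ⟨a, ha, h1⟩ := Finset.exists_ne_zero_of_sum_ne_zero hv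
  simp only [Set.mem_iUnion]
  exact ⟨a, ha, h1⟩

lemma LG_sum {α : Type*} (s : Finset α) {f : α → AbsoluteValue L ℝ → ℝ}
    (h : ∀ a ∈ s, FS (f a)) : LG (fun v => ∑ a ∈ s, f a v) = ∑ a ∈ s, LG (f a) := by
  unfold LG
  rw [Finset.sum_add_distrib, finsum_sum_comm s _ h, Multiset.sum_map_sum]

lemma LG_le {f g : AbsoluteValue L ℝ → ℝ} (hf : FS f) (hg : FS g) {c : ℝ}
    (h1 : ∀ v ∈ archAbsVal (K := L), f v ≤ g v + c)
    (h2 : ∀ v ∈ nonarchAbsVal (K := L), f v ≤ g v) : LG f ≤ LG g + totalWeight L * c := by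
  unfold LG
  have a1 := Multiset.sum_map_le_sum_map f (fun v => g v + c) h1
  rw [Multiset.sum_map_add, Multiset.map_const', Multiset.sum_replicate, nsmul_eq_mul] at a1
  have a2 := finsum_le_finsum' hf hg fun v => h2 v.1 v.2
  unfold totalWeight
  linarith

/-- Local bounds between products of norms give a bound between sums of heights. -/
lemma glob {α β : Type*} (s : Finset α) (t : Finset β) {P : α → MvPolynomial ι L}
    {Q : β → MvPolynomial ι' L} (hPs : ∀ a ∈ s, P a ≠ 0) (hQ : ∀ b ∈ t, Q b ≠ 0) {c : ℝ}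
    (hc : 0 < c)
    (h1 : ∀ v ∈ archAbsVal (K := L), ∏ a ∈ s, nv v (P a) ≤ c * ∏ b ∈ t, nv v (Q b))
    (h2 : ∀ v ∈ nonarchAbsVal (K := L), ∏ a ∈ s, nv v (P a) ≤ ∏ b ∈ t, nv v (Q b)) :
    ∑ a ∈ s, hP (P a) ≤ ∑ b ∈ t, hP (Q b) + totalWeight L * Real.log c := by
  rw [Finset.sum_congr rfl fun a ha => hP_eq (hPs a ha),
    Finset.sum_congr rfl fun b hb => hP_eq (hQ b hb),
    ← LG_sum s fun a ha => FS_nv (hPs a ha), ← LG_sum t fun b hb => FS_nv (hQ b hb)]
  have p1 : ∀ v : AbsoluteValue L ℝ, 0 < ∏ a ∈ s, nv v (P a) := fun v =>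
    Finset.prod_pos fun a ha => nv_pos v (hPs a ha)
  have p2 : ∀ v : AbsoluteValue L ℝ, 0 < ∏ b ∈ t, nv v (Q b) := fun v =>
    Finset.prod_pos fun a ha => nv_pos v (hQ a ha)
  refine LG_le (FS.sum s fun a ha => FS_nv (hPs a ha)) (FS.sum t fun b hb => FS_nv (hQ b hb))
    (fun v hv => ?_) (fun v hv => ?_)
  · rw [← Real.log_prod fun a ha => (nv_pos v (hPs a ha)).ne',
      ← Real.log_prod fun a ha => (nv_pos v (hQ a ha)).ne', ← Real.log_mul (p2 v).ne' hc.ne',
      mul_comm]
    exact Real.log_le_log (p1 v) (h1 v hv)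
  · rw [← Real.log_prod fun a ha => (nv_pos v (hPs a ha)).ne',
      ← Real.log_prod fun a ha => (nv_pos v (hQ a ha)).ne']
    exact Real.log_le_log (p1 v) (h2 v hv)

end glob

end D4P91
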