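import Pool.Agent.Lib.D4P91.Res

/-! The two steps of the product lemma: choice of a factor, elimination of a variable. -/

open MvPolynomial Height Height.AdmissibleAbsValues

namespace D4P91

variable {L : Type*} [Field L] {ι ι' : Type*}

lemma fse_pderiv {n : ℕ} (G : MvPolynomial (Fin (n + 1)) L) :
    finSuccEquiv L n (pderiv 0 G) = Polynomial.derivative (finSuccEquiv L n G) := by
  induction G using MvPolynomial.induction_on with
  | C r => simp [finSuccEquiv_apply]
  | add p q hp hq => simp only [map_add, hp, hq]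
  | mul_X p b hp =>
    rw [Derivation.leibniz, smul_eq_mul, smul_eq_mul, map_add, map_mul, map_mul, map_mul, hp,
      Polynomial.derivative_mul]
    refine Fin.cases ?_ (fun j => ?_) b
    · simp [finSuccEquiv_X_zero]; ring
    · simp [finSuccEquiv_X_succ, pderiv_X_of_ne (Fin.succ_ne_zero j)]; ring

lemma OrdGE.eval_eq {w : ι → ℕ} {x : ι → L} {P : MvPolynomial ι L} {t : ℝ}
    (h : OrdGE w (sh x P) t) (ht : 0 < t) : eval x P = 0 := by
  by_contra h1
  have := h 0 (by rwa [coeff_zero_sh])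
  simp only [map_zero, Nat.cast_zero] at this
  linarith

lemma sum_max_ge {m w : ℕ} {σ S : ℝ} (hσ : 0 < σ) (hσ1 : σ ≤ 1) (hS : 0 < S)
    (hm : (w * m : ℝ) ≤ 2 * S) :
    σ ^ 2 / 32 * (m * S) ≤ ∑ i : Fin m, max (σ * S / 2 - (i : ℕ) * w) 0 := by
  set r := ⌈σ * m / 8⌉₊ with hr
  have h0 : 0 ≤ σ * m / 8 := by positivity
  have hm0 : (0 : ℝ) ≤ m := Nat.cast_nonneg m
  have hrm : r ≤ m := Nat.ceil_le.2 (by nlinarith)
  have hw0 : (0 : ℝ) ≤ w := Nat.cast_nonneg w
  rw [Fin.sum_univ_eq_sum_range (fun i => max (σ * S / 2 - (i : ℝ) * w) 0)]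
  calc σ ^ 2 / 32 * (m * S) = σ * m / 8 * (σ * S / 4) := by ring
    _ ≤ r * (σ * S / 4) := mul_le_mul_of_nonneg_right (Nat.le_ceil _) (by positivity)
    _ = ∑ _i ∈ Finset.range r, σ * S / 4 := by simp
    _ ≤ ∑ i ∈ Finset.range r, max (σ * S / 2 - (i : ℝ) * w) 0 :=
        Finset.sum_le_sum fun i hi => le_max_of_le_left (by
          have h1 : (i : ℝ) < σ * m / 8 := Nat.lt_ceil.1 (Finset.mem_range.1 hi)
          have h2 : (i : ℝ) * w ≤ σ * m / 8 * w := mul_le_mul_of_nonneg_right h1.le hw0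
          nlinarith)
    _ ≤ _ := Finset.sum_le_sum_of_subset_of_nonneg (Finset.range_mono hrm)
        fun _ _ _ => le_max_right _ _

variable [NumberField L]

/-- Hypotheses of the product lemma. -/
structure Hyp (w : ι → ℕ) (x : ι → L) (Φ : MvPolynomial ι L) (S HH σ : ℝ) : Prop where
  ne : Φ ≠ 0
  pos : 0 < S
  deg : ∀ a, (w a * degreeOf a Φ : ℝ) ≤ S
  ht : hP Φ ≤ HH
  ord : OrdGE w (sh x Φ) (σ * S)

lemma Hyp.sum_deg [Fintype ι] {w : ι → ℕ} {x : ι → L} {Φ : MvPolynomial ι L} {S HH σ : ℝ}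
    (h : Hyp w x Φ S HH σ) (hw : ∀ a, 1 ≤ w a) :
    ((∑ a, degreeOf a Φ : ℕ) : ℝ) ≤ Fintype.card ι * S := by
  rw [Nat.cast_sum]
  have := Finset.sum_le_card_nsmul Finset.univ (fun a => (degreeOf a Φ : ℝ)) S fun a _ => by
    have h1 : (1 : ℝ) ≤ w a := by exact_mod_cast hw a
    nlinarith [h.deg a, Nat.cast_nonneg (α := ℝ) (degreeOf a Φ)]
  simpa using this

lemma Hyp.rename (e : ι ≃ ι') {w : ι' → ℕ} {x : ι' → L} {Φ : MvPolynomial ι L} {S HH σ : ℝ}
    (h : Hyp (w ∘ e) (x ∘ e) Φ S HH σ) : Hyp w x (rename e Φ) S HH σ where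
  ne := fun h1 => h.ne (rename_injective e e.injective (by simpa using h1))
  pos := h.pos
  deg := fun a => by
    have := h.deg (e.symm a)
    rw [← degreeOf_rename_of_injective e.injective] at this
    simpa using this
  ht := by rw [hP_rename e.injective h.ne]; exact h.ht
  ord := by rw [sh_rename]; exact h.ord.rename e

theorem elim_step {n : ℕ} {w : Fin (n + 1) → ℕ} {x : Fin (n + 1) → L}
    {G : MvPolynomial (Fin (n + 1)) L} {S HH σ : ℝ} (h : Hyp w x G S HH σ) (hG : Prime G)
    (hw : ∀ a, 1 ≤ w a) (hσ : 0 < σ) (hσ1 : σ ≤ 1) (h0 : degreeOf 0 G ≠ 0)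
    (hb : 2 * (w 0 : ℝ) ≤ σ * S) : ∃ (m : ℕ) (R : MvPolynomial (Fin n) L), 1 ≤ m ∧
      Hyp (w ∘ Fin.succ) (x ∘ Fin.succ) R (m * S)
        (m * (HH + 4 * totalWeight L * (n + 1) * S)) (σ ^ 2 / 32) := by
  classical
  set g := finSuccEquiv L n G with hg
  have hgd : g.natDegree = degreeOf 0 G := natDegree_finSuccEquiv G
  have hh : finSuccEquiv L n (pderiv 0 G) = Polynomial.derivative g := fse_pderiv G
  have hd0 : Polynomial.derivative g ≠ 0 := fun h1 =>
    h0 (hgd ▸ Polynomial.derivative_eq_zero.1 h1)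
  have hdl : (Polynomial.derivative g).natDegree < g.natDegree :=
    Polynomial.natDegree_derivative_lt (hgd ▸ h0)
  have hp : Prime g := (MulEquiv.prime_iff (finSuccEquiv L n).toMulEquiv).2 hG
  have hR : g.resultant (Polynomial.derivative g) ≠ 0 := res_ne_zero hp fun h1 =>
    absurd (Polynomial.natDegree_le_of_dvd h1 hd0) (not_le.2 hdl)
  have hhd : (Polynomial.derivative g).natDegree = degreeOf 0 (pderiv 0 G) := by
    rw [← hh, natDegree_finSuccEquiv]
  set m := g.natDegree + (Polynomial.derivative g).natDegree with hm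
  have hm1 : 1 ≤ m := by omega
  have hm0 : (0 : ℝ) < m := by exact_mod_cast hm1
  set D := ∑ a, degreeOf a G with hD
  have hD0 : degreeOf 0 G ≤ D := Finset.single_le_sum (f := fun a => degreeOf a G)
    (fun _ _ => Nat.zero_le _) (Finset.mem_univ 0)
  have hmD : m ≤ 2 * D := by omega
  set M := Polynomial.sylvester g (Polynomial.derivative g) g.natDegree
    (Polynomial.derivative g).natDegree with hM
  have hent : ∀ i j, ∃ c k : ℕ, k ≤ D ∧ M i j = g.coeff c * (k : MvPolynomial (Fin n) L) := by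
    intro i j
    rcases sylv_entry g (Polynomial.derivative g) _ _ i j with h1 | ⟨c, -, h1 | h1⟩
    · exact ⟨0, 0, Nat.zero_le _, by rw [hM, h1]; simp⟩
    · exact ⟨c, 1, by omega, by rw [hM, h1]; simp⟩
    · by_cases hc : c + 1 ≤ g.natDegree
      · exact ⟨c + 1, c + 1, by omega, by rw [hM, h1, Polynomial.coeff_derivative]; simp⟩
      · refine ⟨0, 0, Nat.zero_le _, ?_⟩
        rw [hM, h1, Polynomial.coeff_derivative,
          Polynomial.coeff_eq_zero_of_natDegree_lt (not_le.1 hc)]
        simp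
  have hdeg : ∀ i j a, degreeOf a (M i j) ≤ degreeOf a.succ G := fun i j a => by
    obtain ⟨c, k, -, h1⟩ := hent i j
    rw [h1, ← map_natCast (C : L →+* MvPolynomial (Fin n) L)]
    refine (degreeOf_mul_le _ _ _).trans ?_
    rw [degreeOf_C, add_zero]
    exact degreeOf_coeff_finSuccEquiv G a c
  have hnv : ∀ (v : AbsoluteValue L ℝ) (B : ℝ), 0 ≤ B → (∀ k : ℕ, k ≤ D → v k ≤ B) →
      ∀ i j, nv v (M i j) ≤ B * nv v G := fun v B hB hk i j => by
    obtain ⟨c, k, hkD, h1⟩ := hent i j
    refine nv_le v (mul_nonneg hB (nv_nonneg _ _)) fun d => ?_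
    rw [h1, ← map_natCast (C : L →+* MvPolynomial (Fin n) L), mul_comm, coeff_C_mul, map_mul,
      hg, finSuccEquiv_coeff_coeff]
    exact mul_le_mul (hk k hkD) (le_nv _ _ _) (v.nonneg _) hB
  have hRM : g.resultant (Polynomial.derivative g) = M.det := rfl
  refine ⟨m, _, hm1, hR, mul_pos hm0 h.pos, fun a => ?_, ?_, ?_⟩
  · have h1 : (degreeOf a (g.resultant (Polynomial.derivative g)) : ℝ) ≤ m * degreeOf a.succ G := by
      rw [hRM]; exact_mod_cast deg_det a M fun i j => hdeg i j a
    have h2 := h.deg a.succ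
    have h3 : (0 : ℝ) ≤ w a.succ := Nat.cast_nonneg _
    calc ((w ∘ Fin.succ) a : ℝ) * _ ≤ w a.succ * (m * degreeOf a.succ G) :=
          mul_le_mul_of_nonneg_left h1 h3
      _ = m * (w a.succ * degreeOf a.succ G) := by ring
      _ ≤ _ := mul_le_mul_of_nonneg_left h2 hm0.le
  · have h1 := glob ({()} : Finset Unit) (Finset.univ : Finset (Fin m))
      (P := fun _ => g.resultant (Polynomial.derivative g)) (Q := fun _ => G) (fun _ _ => hR)
      (fun _ _ => h.ne) (c := 2 ^ (4 * D * m)) (by positivity)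
      (fun v _ => by
        have h2 : ∀ i j, l1 v (M i j) ≤ 2 ^ D * (2 ^ D * nv v G) := fun i j => by
          refine (l1_le_nv v _ (D := D) ?_).trans (mul_le_mul_of_nonneg_left
            (hnv v _ (by positivity) (fun k hk => ?_) i j) (by positivity))
          · rw [hD, Fin.sum_univ_succ]
            exact le_add_left (Finset.sum_le_sum fun a _ => hdeg i j a)
          · refine (v.apply_nat_le_self k).trans ?_
            exact_mod_cast hk.trans Nat.lt_two_pow_self.le
        have h3 := nv_nonneg v G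
        simp only [Finset.prod_const, Finset.card_singleton, pow_one, Finset.card_univ,
          Fintype.card_fin]
        rw [hRM]
        refine ((nv_le_l1 _ _).trans (l1_det v M (by positivity) h2)).trans ?_
        rw [pow_mul, ← mul_pow]
        refine pow_le_pow_left₀ (by positivity) ?_ _
        rw [← mul_assoc, ← mul_assoc, ← pow_add, ← pow_add]
        exact mul_le_mul_of_nonneg_right (pow_le_pow_right₀ one_le_two (by omega)) h3)
      (fun v hv => by
        simp only [Finset.prod_const, Finset.card_singleton, pow_one, Finset.card_univ,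
          Fintype.card_fin]
        rw [hRM]
        refine nv_det (isNonarchimedean v hv) M (nv_nonneg _ _) fun i j => ?_
        simpa using hnv v 1 zero_le_one
          (fun k _ => (isNonarchimedean v hv).apply_natCast_le_one) i j)
    simp only [Finset.sum_const, Finset.card_singleton, one_smul, Finset.card_univ,
      Fintype.card_fin, nsmul_eq_mul, Real.log_pow] at h1
    have h2 := h.sum_deg hw
    rw [Fintype.card_fin, ← hD] at h2
    have h3 : Real.log 2 ≤ 1 := by have := Real.log_two_lt_d9; linarith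
    have h4 : ((4 * D * m : ℕ) : ℝ) * Real.log 2 ≤ 4 * ((n + 1) * S) * m := by
      refine (mul_le_of_le_one_right (Nat.cast_nonneg _) h3).trans ?_
      push_cast at h2 ⊢
      nlinarith
    have h5 : (0 : ℝ) ≤ totalWeight L := Nat.cast_nonneg _
    nlinarith [mul_le_mul_of_nonneg_left h4 h5, mul_le_mul_of_nonneg_left h.ht hm0.le]
  · have h1 : OrdGE w (sh x G) (σ * S / 2) := h.ord.mono (by nlinarith [h.pos])
    have h2 : OrdGE w (sh x (pderiv 0 G)) (σ * S / 2) := by
      rw [sh_pderiv]; exact (h.ord.pderiv 0).mono (by linarith)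
    have h3 := ord_res x h1 h2
    rw [hh, ← hg, ← hgd, ← hhd] at h3
    refine h3.mono (sum_max_ge hσ hσ1 h.pos ?_)
    have h4 : (m : ℝ) ≤ 2 * degreeOf 0 G := by exact_mod_cast (by omega : m ≤ 2 * degreeOf 0 G)
    nlinarith [h.deg 0, Nat.cast_nonneg (α := ℝ) (w 0)]

theorem factor_step {n : ℕ} {w : Fin n → ℕ} {x : Fin n → L} {Φ : MvPolynomial (Fin n) L}
    {S HH σ : ℝ} (h : Hyp w x Φ S HH σ) (hw : ∀ a, 1 ≤ w a) (hσ : 0 < σ) :
    ∃ (G : MvPolynomial (Fin n) L) (S' : ℝ), Prime G ∧ G.vars.Nonempty ∧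
      Hyp w x G S' (S' * ((HH + S) / S)) (σ / (2 * (n + 1 + 2 * totalWeight L * n))) := by
  classical
  have hS := h.pos
  have hH : 0 ≤ HH := (hP_nonneg Φ).trans h.ht
  have hu : ¬IsUnit Φ := fun hu =>
    (hu.map (eval x)).ne_zero (h.ord.eval_eq (mul_pos hσ hS))
  obtain ⟨f, hf, hprod, hne⟩ := (WfDvdMonoid.not_isUnit_iff_exists_factors_eq Φ h.ne).1 hu
  rw [Multiset.prod_eq_prod_coe] at hprod
  have hj : ∀ j : f, Irreducible (j : MvPolynomial (Fin n) L) := fun j => hf _ Multiset.coe_mem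
  have hne' : (Finset.univ : Finset f).Nonempty := by
    obtain ⟨b, hb⟩ := Multiset.exists_mem_of_ne_zero hne
    exact ⟨f.mkToType b ⟨0, Multiset.count_pos.2 hb⟩, Finset.mem_univ _⟩
  have h1 := gelfond Finset.univ hne' (fun j : f => (j : MvPolynomial (Fin n) L))
    fun j _ => (hj j).ne_zero
  rw [hprod] at h1
  have h2 := h.sum_deg hw
  rw [Fintype.card_fin] at h2
  have htw : (0 : ℝ) ≤ totalWeight L := Nat.cast_nonneg _
  set K : ℝ := n + 1 + 2 * totalWeight L * n with hK
  have hK0 : 0 < K := by positivity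
  set lam := S / (HH + S) with hlam
  have hlam0 : 0 < lam := by positivity
  let s : f → ℝ := fun j => ∑ a, (w a * degreeOf a (j : MvPolynomial (Fin n) L) : ℝ) +
    lam * hP (j : MvPolynomial (Fin n) L)
  have hs : ∑ j, s j ≤ K * S := by
    rw [Finset.sum_add_distrib, Finset.sum_comm, ← Finset.mul_sum]
    have a1 : ∑ a, ∑ j : f, (w a * degreeOf a (j : MvPolynomial (Fin n) L) : ℝ) ≤ n * S := by
      have := Finset.sum_le_card_nsmul Finset.univ (fun a => ∑ j : f,
        (w a * degreeOf a (j : MvPolynomial (Fin n) L) : ℝ)) S fun a _ => by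
          rw [← Finset.mul_sum, ← Nat.cast_sum, ← degreeOf_prod_eq _ _ fun j _ => (hj j).ne_zero,
            hprod]
          exact h.deg a
      simpa using this
    have a2 : ∑ j : f, hP (j : MvPolynomial (Fin n) L) ≤ (1 + 2 * totalWeight L * n) * (HH + S) := by
      have := mul_le_mul_of_nonneg_left h2 (by positivity : (0 : ℝ) ≤ 2 * totalWeight L)
      have a3 : (0 : ℝ) ≤ 2 * totalWeight L * n * HH := by positivity
      nlinarith [h.ht]
    have a4 : lam * ((1 + 2 * totalWeight L * n) * (HH + S)) = (1 + 2 * totalWeight L * n) * S := by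
      rw [hlam]; field_simp
    nlinarith [mul_le_mul_of_nonneg_left a2 hlam0.le]
  have hJ : ∀ j : f, ∃ J, coeff J (sh x (j : MvPolynomial (Fin n) L)) ≠ 0 ∧
      (Finsupp.weight w J : ℕ∞) = MvPowerSeries.weightedOrder w
        (sh x (j : MvPolynomial (Fin n) L) : MvPowerSeries (Fin n) L) := fun j => by
    have a1 : (sh x (j : MvPolynomial (Fin n) L) : MvPowerSeries (Fin n) L) ≠ 0 := fun a2 =>
      (hj j).ne_zero (sh_injective x (by rw [map_zero]; exact coe_eq_zero_iff.1 a2))
    simpa using MvPowerSeries.exists_coeff_ne_zero_and_weightedOrder w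
      ((MvPowerSeries.ne_zero_iff_weightedOrder_finite w).1 a1)
  choose J hJ0 hJ1 using hJ
  have hsum : σ * S ≤ ∑ j : f, (Finsupp.weight w (J j) : ℝ) := by
    have a1 : (sh x Φ : MvPowerSeries (Fin n) L) ≠ 0 := fun a2 =>
      h.ne (sh_injective x (by rw [map_zero]; exact coe_eq_zero_iff.1 a2))
    obtain ⟨d, hd, hd1⟩ := MvPowerSeries.exists_coeff_ne_zero_and_weightedOrder w
      ((MvPowerSeries.ne_zero_iff_weightedOrder_finite w).1 a1)
    have a2 : (sh x Φ : MvPowerSeries (Fin n) L) = ∏ j : f,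
        (sh x (j : MvPolynomial (Fin n) L) : MvPowerSeries (Fin n) L) := by
      rw [← hprod, map_prod]
      exact map_prod (coeToMvPowerSeries.ringHom (σ := Fin n) (R := L)) _ _
    have a3 : Finsupp.weight w d = ∑ j : f, Finsupp.weight w (J j) := by
      rw [a2, MvPowerSeries.weightedOrder_prod, ← Finset.sum_congr rfl fun j _ => hJ1 j] at hd1
      exact_mod_cast hd1
    have a4 := h.ord d (by simpa using hd)
    rw [a3] at a4
    exact_mod_cast a4
  obtain ⟨j, -, hlt⟩ : ∃ j ∈ (Finset.univ : Finset f),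
      σ / (2 * K) * s j < (Finsupp.weight w (J j) : ℝ) := by
    refine Finset.exists_lt_of_sum_lt ?_
    rw [← Finset.mul_sum]
    have a1 : σ / (2 * K) * (K * S) = σ * S / 2 := by field_simp
    have a2 := mul_le_mul_of_nonneg_left hs (by positivity : 0 ≤ σ / (2 * K))
    nlinarith [mul_pos hσ hS]
  have hord : OrdGE w (sh x (j : MvPolynomial (Fin n) L)) (Finsupp.weight w (J j) : ℕ) :=
    fun d hd => by
      have := MvPowerSeries.weightedOrder_le w
        (f := (sh x (j : MvPolynomial (Fin n) L) : MvPowerSeries (Fin n) L)) (d := d)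
        (by simpa using hd)
      rw [← hJ1] at this
      exact_mod_cast this
  have hv : (j : MvPolynomial (Fin n) L).vars.Nonempty := by
    rw [Finset.nonempty_iff_ne_empty]
    intro a1
    have a2 := vars_eq_empty_iff_eq_C.1 a1
    refine (hj j).not_isUnit ?_
    rw [a2]
    exact (IsUnit.mk0 _ fun a3 => (hj j).ne_zero (by rw [a2, a3, C_0])).map C
  have hle : ∀ a, (w a * degreeOf a (j : MvPolynomial (Fin n) L) : ℝ) ≤
      ∑ a, (w a * degreeOf a (j : MvPolynomial (Fin n) L) : ℝ) := fun a =>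
    Finset.single_le_sum (f := fun a => (w a * degreeOf a (j : MvPolynomial (Fin n) L) : ℝ))
      (fun _ _ => by positivity) (Finset.mem_univ a)
  have hh0 := hP_nonneg (j : MvPolynomial (Fin n) L)
  have hd : ∀ a, (w a * degreeOf a (j : MvPolynomial (Fin n) L) : ℝ) ≤ s j := fun a =>
    (hle a).trans (le_add_of_nonneg_right (by positivity))
  refine ⟨j, s j, (hj j).prime, hv, (hj j).ne_zero, ?_, hd, ?_, hord.mono hlt.le⟩
  · obtain ⟨a, ha⟩ := hv
    refine lt_of_lt_of_le ?_ (hd a)
    have := Nat.pos_of_ne_zero (mem_vars_iff_degreeOf_ne_zero.1 ha)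
    have := hw a
    positivity
  · have a1 : lam * hP (j : MvPolynomial (Fin n) L) ≤ s j :=
      le_add_of_nonneg_left (Finset.sum_nonneg fun _ _ => by positivity)
    have a2 : hP (j : MvPolynomial (Fin n) L) =
        lam * hP (j : MvPolynomial (Fin n) L) * ((HH + S) / S) := by
      rw [hlam]; field_simp
    rw [a2]
    exact mul_le_mul_of_nonneg_right a1 (by positivity)

end D4P91
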