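import Pool.Agent.Lib.D4P91.Nv

/-! Heights of the factors of a polynomial in several variables. -/

open MvPolynomial Height Height.AdmissibleAbsValues

namespace D4P91

open Filter MeasureTheory Set Real Polynomial in
lemma exists_circle (p : Polynomial ℂ) : ∃ t : ℂ, ‖t‖ = 1 ∧ p.mahlerMeasure ≤ ‖p.eval t‖ := by
  obtain ⟨t, ht, hmax⟩ := (isCompact_sphere (0 : ℂ) 1).exists_isMaxOn
    (f := fun z => ‖p.eval z‖) ⟨1, by simp⟩ (by fun_prop)
  refine ⟨t, by simpa using ht, ?_⟩
  by_cases hp : p = 0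
  · simp [hp]
  have hb : ∀ x : ℝ, ‖p.eval (circleMap 0 1 x)‖ ≤ ‖p.eval t‖ := fun x =>
    hmax (by simp : circleMap 0 1 x ∈ Metric.sphere (0 : ℂ) 1)
  have hae : {x : ℝ | eval (circleMap 0 1 x) p ≠ 0} ∈ ae (volume.restrict (Icc 0 (2 * π))) := by
    rw [mem_ae_iff, compl_def, Measure.restrict_apply' (by simp)]
    apply (Finite.of_sdiff _ <| finite_singleton (2 * π)).measure_zero
    simp only [ne_eq, mem_ofPred_eq, Decidable.not_not, inter_sdiff_assoc, Icc_sdiff_right]
    rw [ofPred_inter_eq_sep]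
    apply Finite.of_finite_image (f := circleMap 0 1) ((Multiset.finite_toSet p.roots).subset _)
      <| fun _ h _ k l ↦ injOn_circleMap_of_abs_sub_le' one_ne_zero (by linarith) h.1 k.1 l
    simp [hp]
  have hpos : 0 < ‖p.eval t‖ := by
    have hne : (ae (volume.restrict (Icc 0 (2 * π)))).NeBot := by
      rw [ae_neBot, Ne, Measure.restrict_eq_zero, Real.volume_Icc]
      simp [pi_pos]
    obtain ⟨x, hx⟩ := hne.nonempty_of_mem hae
    exact (norm_pos_iff.2 hx).trans_le (hb x)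
  rw [show ‖p.eval t‖ = rexp (circleAverage (fun _ ↦ log ‖p.eval t‖) 0 1)
    by simp [circleAverage_def, mul_assoc, exp_log hpos], mahlerMeasure_def_of_ne_zero hp,
    circleAverage_def, smul_eq_mul]
  gcongr
  apply intervalIntegral.integral_mono_ae_restrict (by positivity)
    p.intervalIntegrable_mahlerMeasure (by simp)
  rw [EventuallyLE, eventually_iff_exists_mem]
  exact ⟨_, hae, fun x hx => Real.log_le_log (norm_pos_iff.2 hx) (hb x)⟩

lemma mahler_prod {J : Type*} (s : Finset J) (p : J → Polynomial ℂ) :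
    (∏ j ∈ s, p j).mahlerMeasure = ∏ j ∈ s, (p j).mahlerMeasure := by
  classical
  induction s using Finset.induction_on with
  | empty => simp
  | insert a s ha ih => rw [Finset.prod_insert ha, Finset.prod_insert ha,
      Polynomial.mahlerMeasure_mul, ih]

lemma gel_pt {J : Type*} (s : Finset J) (n : ℕ) : ∀ (G : J → MvPolynomial (Fin n) ℂ)
    (m : J → (Fin n →₀ ℕ)), ∃ a : Fin n → ℂ, (∀ i, ‖a i‖ = 1) ∧
      ∏ j ∈ s, ‖coeff (m j) (G j)‖ ≤
        2 ^ (∑ j ∈ s, ∑ i, degreeOf i (G j)) * ∏ j ∈ s, ‖eval a (G j)‖ := by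
  induction n with
  | zero =>
    intro G m
    refine ⟨fun _ => 1, fun _ => norm_one, le_of_eq ?_⟩
    simp only [Finset.univ_eq_empty, Finset.sum_empty, Finset.sum_const_zero, pow_zero, one_mul]
    refine Finset.prod_congr rfl fun j _ => ?_
    rw [Subsingleton.elim (m j) 0]
    conv_rhs => rw [eq_C_of_isEmpty (G j), eval_C]
  | succ n ih =>
    intro G m
    obtain ⟨a, ha, h⟩ := ih (fun j => (finSuccEquiv ℂ n (G j)).coeff (m j 0))
      (fun j => (m j).tail)
    obtain ⟨t, ht, h2⟩ := exists_circle (∏ j ∈ s, (finSuccEquiv ℂ n (G j)).map (eval a))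
    refine ⟨Fin.cons t a, fun i => Fin.cases (by simpa using ht) (fun i => by simpa using ha i) i,
      ?_⟩
    simp only [finSuccEquiv_coeff_coeff, Finsupp.cons_tail] at h
    rw [mahler_prod, Polynomial.eval_prod, norm_prod] at h2
    simp only [eval_eq_eval_mv_eval']
    have h3 : ∏ j ∈ s, ‖eval a ((finSuccEquiv ℂ n (G j)).coeff (m j 0))‖ ≤
        ∏ j ∈ s, (2 ^ degreeOf 0 (G j) *
          ((finSuccEquiv ℂ n (G j)).map (eval a)).mahlerMeasure) := by
      refine Finset.prod_le_prod (fun _ _ => norm_nonneg _) fun j _ => ?_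
      rw [← Polynomial.coeff_map]
      refine (Polynomial.norm_coeff_le_choose_mul_mahlerMeasure _ _).trans
        (mul_le_mul_of_nonneg_right ?_ (Polynomial.mahlerMeasure_nonneg _))
      have := (Nat.choose_le_two_pow ((finSuccEquiv ℂ n (G j)).map (eval a)).natDegree
        (m j 0)).trans (Nat.pow_le_pow_right two_pos (Polynomial.natDegree_map_le.trans
          (natDegree_finSuccEquiv (G j)).le))
      exact_mod_cast this
    rw [Finset.prod_mul_distrib, Finset.prod_pow_eq_pow_sum] at h3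
    have h4 : (2 : ℝ) ^ (∑ j ∈ s, ∑ i, degreeOf i ((finSuccEquiv ℂ n (G j)).coeff (m j 0))) ≤
        2 ^ (∑ j ∈ s, ∑ i : Fin n, degreeOf i.succ (G j)) :=
      pow_le_pow_right₀ one_le_two (Finset.sum_le_sum fun j _ => Finset.sum_le_sum fun i _ =>
        degreeOf_coeff_finSuccEquiv _ _ _)
    simp only [Fin.sum_univ_succ, Finset.sum_add_distrib, pow_add]
    refine h.trans ?_
    calc _ ≤ (2 : ℝ) ^ (∑ j ∈ s, ∑ i : Fin n, degreeOf i.succ (G j)) *
          (2 ^ (∑ j ∈ s, degreeOf 0 (G j)) * ∏ j ∈ s, ‖Polynomial.eval t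
            ((finSuccEquiv ℂ n (G j)).map (eval a))‖) := by
          refine mul_le_mul h4 (h3.trans ?_) (Finset.prod_nonneg fun _ _ => norm_nonneg _)
            (by positivity)
          exact mul_le_mul_of_nonneg_left h2 (by positivity)
      _ = _ := by ring

variable {L : Type*} [Field L]

lemma gel_arch {J : Type*} (s : Finset J) {n : ℕ} (φ : L →+* ℂ) (v : AbsoluteValue L ℝ)
    (hv : ∀ a, v a = ‖φ a‖) (G : J → MvPolynomial (Fin n) L) (hG : ∀ j ∈ s, G j ≠ 0) :
    ∏ j ∈ s, nv v (G j) ≤ 4 ^ (∑ i, degreeOf i (∏ j ∈ s, G j)) * nv v (∏ j ∈ s, G j) := by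
  classical
  have hm : ∀ j, ∃ m, j ∈ s → v (coeff m (G j)) = nv v (G j) := fun j => by
    by_cases hj : j ∈ s
    · obtain ⟨m, -, h⟩ := exists_nv v (hG j hj)
      exact ⟨m, fun _ => h⟩
    · exact ⟨0, fun h => absurd h hj⟩
  choose m hm using hm
  obtain ⟨a, ha, h⟩ := gel_pt s n (fun j => map φ (G j)) m
  have e1 : ∏ j ∈ s, ‖coeff (m j) (map φ (G j))‖ = ∏ j ∈ s, nv v (G j) :=
    Finset.prod_congr rfl fun j hj => by rw [coeff_map, ← hv, hm j hj]
  have e2 : ∑ j ∈ s, ∑ i, degreeOf i (map φ (G j)) = ∑ i, degreeOf i (∏ j ∈ s, G j) := by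
    rw [Finset.sum_comm]
    refine Finset.sum_congr rfl fun i _ => ?_
    rw [degreeOf_prod_eq s G hG]
    refine Finset.sum_congr rfl fun j _ => ?_
    rw [degreeOf_eq_sup, degreeOf_eq_sup, support_map_of_injective _ φ.injective]
  have e3 : ∏ j ∈ s, ‖eval a (map φ (G j))‖ ≤ l1 v (∏ j ∈ s, G j) := by
    rw [← norm_prod, ← map_prod, ← map_prod, eval_map, eval₂_eq']
    refine (norm_sum_le _ _).trans (le_of_eq (Finset.sum_congr rfl fun k _ => ?_))
    simp [hv, norm_prod, ha]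
  rw [e1, e2] at h
  have e4 := l1_le_nv v (∏ j ∈ s, G j) le_rfl
  calc _ ≤ _ := h
    _ ≤ 2 ^ (∑ i, degreeOf i (∏ j ∈ s, G j)) * (2 ^ (∑ i, degreeOf i (∏ j ∈ s, G j)) *
        nv v (∏ j ∈ s, G j)) := mul_le_mul_of_nonneg_left (e3.trans e4) (by positivity)
    _ = _ := by rw [← mul_assoc, ← mul_pow]; norm_num

lemma gauss_two {n : ℕ} {v : AbsoluteValue L ℝ} (hv : IsNonarchimedean v)
    (P Q : MvPolynomial (Fin n) L) : nv v P * nv v Q ≤ nv v (P * Q) := by
  classical
  by_cases hP : P = 0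
  · rw [hP, nv_zero, zero_mul]; exact nv_nonneg _ _
  by_cases hQ : Q = 0
  · rw [hQ, nv_zero, mul_zero]; exact nv_nonneg _ _
  have key : ∀ {R : MvPolynomial (Fin n) L}, R ≠ 0 → ∃ i, v (coeff i R) = nv v R ∧
      ∀ k, toLex i < toLex k → v (coeff k R) < nv v R := fun {R} hR => by
    obtain ⟨m, hm, h⟩ := exists_nv v hR
    obtain ⟨i, hi, h2⟩ := Finset.exists_max_image
      (R.support.filter fun k => v (coeff k R) = nv v R) (fun k => toLex k)
      ⟨m, Finset.mem_filter.2 ⟨hm, h⟩⟩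
    refine ⟨i, (Finset.mem_filter.1 hi).2, fun k hk => lt_of_le_of_ne (le_nv _ _ _) fun h3 => ?_⟩
    refine absurd (h2 k (Finset.mem_filter.2 ⟨mem_support_iff.2 fun h4 => ?_, h3⟩)) (not_le.2 hk)
    rw [h4, v.map_zero] at h3
    exact (nv_pos v hR).ne h3
  obtain ⟨i, hi, hi'⟩ := key hP
  obtain ⟨j, hj, hj'⟩ := key hQ
  refine le_trans (le_of_eq ?_) (le_nv v _ (i + j))
  rw [coeff_mul, IsNonarchimedean.apply_sum_eq_of_lt hv (fun a => (v.map_neg a).symm)
    (k := (i, j)) (Finset.HasAntidiagonal.mem_antidiagonal.2 rfl), map_mul, hi, hj]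
  rintro ⟨a, b⟩ hab hne
  have hab' : toLex a + toLex b = toLex i + toLex j := congrArg toLex (Finset.HasAntidiagonal.mem_antidiagonal.1 hab)
  simp only [map_mul, hi, hj]
  rcases lt_trichotomy (toLex i) (toLex a) with h | h | h
  · exact (mul_le_mul_of_nonneg_left (le_nv v Q b) (v.nonneg _)).trans_lt
      (mul_lt_mul_of_pos_right (hi' a h) (nv_pos v hQ))
  · have h1 : i = a := toLex.injective h
    subst h1
    exact absurd (by rw [toLex.injective (add_left_cancel hab')]) hne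
  · have h2 : toLex j < toLex b := by
      by_contra h3
      exact absurd hab' (add_lt_add_of_lt_of_le h (not_lt.1 h3)).ne
    exact mul_lt_mul' (le_nv _ _ _) (hj' b h2) (v.nonneg _) (nv_pos v hP)

lemma gauss_prod {J : Type*} (s : Finset J) {n : ℕ} {v : AbsoluteValue L ℝ}
    (hv : IsNonarchimedean v) (G : J → MvPolynomial (Fin n) L) (hs : s.Nonempty) :
    ∏ j ∈ s, nv v (G j) ≤ nv v (∏ j ∈ s, G j) := by
  induction hs using Finset.Nonempty.cons_induction with
  | singleton a => simp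
  | cons a s ha _ ih =>
    rw [Finset.prod_cons, Finset.prod_cons]
    exact (mul_le_mul_of_nonneg_left ih (nv_nonneg _ _)).trans (gauss_two hv _ _)

lemma arch_emb [NumberField L] {v : AbsoluteValue L ℝ} (hv : v ∈ archAbsVal (K := L)) :
    ∃ φ : L →+* ℂ, ∀ a, v a = ‖φ a‖ := by
  obtain ⟨φ, rfl⟩ := NumberField.mem_multisetInfinitePlace.1 hv
  exact ⟨φ, fun a => rfl⟩

/-- The heights of the factors add up to the height of the product, up to a multiple of the
sum of the degrees. -/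
theorem gelfond [NumberField L] {J : Type*} (s : Finset J) (hs : s.Nonempty) {n : ℕ}
    (G : J → MvPolynomial (Fin n) L) (hG : ∀ j ∈ s, G j ≠ 0) :
    ∑ j ∈ s, hP (G j) ≤ hP (∏ j ∈ s, G j) +
      2 * totalWeight L * (∑ i, degreeOf i (∏ j ∈ s, G j) : ℕ) := by
  have h := glob s ({()} : Finset Unit) (Q := fun _ => ∏ j ∈ s, G j) hG
    (fun _ _ => Finset.prod_ne_zero_iff.2 hG)
    (c := 4 ^ (∑ i, degreeOf i (∏ j ∈ s, G j))) (by positivity)
    (fun v hv => by
      obtain ⟨φ, hφ⟩ := arch_emb hv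
      simpa using gel_arch s φ v hφ G hG)
    (fun v hv => by simpa using gauss_prod s (isNonarchimedean v hv) G hs)
  rw [Finset.sum_singleton, Real.log_pow] at h
  have h4 : Real.log 4 ≤ 2 := by
    have := Real.log_two_lt_d9
    rw [show (4 : ℝ) = 2 ^ 2 by norm_num, Real.log_pow]; norm_num; linarith
  have h5 : (0 : ℝ) ≤ totalWeight L * ((∑ i, degreeOf i (∏ j ∈ s, G j) : ℕ) : ℝ) := by positivity
  nlinarith

end D4P91
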