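import Pool.Agent.Lib.D4P91.Gel

/-! Elimination of one variable by a resultant: nonvanishing, degrees, norms, order. -/

open MvPolynomial Height Height.AdmissibleAbsValues

namespace D4P91

section det

variable {D A : Type*} [CommRing D] [AddCommMonoid A]

lemma prod_filt (Φ : D → A → Prop) (h1 : Φ 1 0)
    (hm : ∀ f g a b, Φ f a → Φ g b → Φ (f * g) (a + b)) {α : Type*} (s : Finset α) (f : α → D)
    (t : α → A) (h : ∀ i ∈ s, Φ (f i) (t i)) : Φ (∏ i ∈ s, f i) (∑ i ∈ s, t i) := by
  classical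
  induction s using Finset.induction_on with
  | empty => simpa using h1
  | insert a s ha ih =>
    rw [Finset.prod_insert ha, Finset.sum_insert ha]
    exact hm _ _ _ _ (h a (Finset.mem_insert_self _ _))
      (ih fun i hi => h i (Finset.mem_insert_of_mem hi))

lemma det_filt (Φ : D → A → Prop) (h0 : ∀ a, Φ 0 a) (h1 : Φ 1 0)
    (hm : ∀ f g a b, Φ f a → Φ g b → Φ (f * g) (a + b))
    (ha : ∀ f g a, Φ f a → Φ g a → Φ (f + g) a) (hn : ∀ f a, Φ f a → Φ (-f) a)
    {k : ℕ} (M : Matrix (Fin k) (Fin k) D) (t : Fin k → A) (h : ∀ i j, Φ (M i j) (t i)) :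
    Φ M.det (∑ i, t i) := by
  rw [Matrix.det_apply]
  refine Finset.sum_induction _ (fun f => Φ f (∑ i, t i)) (fun f g => ha f g _) (h0 _)
    fun σ _ => ?_
  have h2 := prod_filt Φ h1 hm Finset.univ (fun i => M (σ i) i) (fun i => t (σ i))
    fun i _ => h _ _
  rw [Equiv.sum_comp σ t] at h2
  rcases Int.units_eq_one_or (Equiv.Perm.sign σ) with h3 | h3 <;> rw [h3]
  · simpa using h2
  · simpa using hn _ _ h2

lemma sylv_entry (f g : Polynomial D) (p q : ℕ) (i j : Fin (p + q)) :
    Polynomial.sylvester f g p q i j = 0 ∨ ∃ c : ℕ, c ≤ i ∧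
      (Polynomial.sylvester f g p q i j = f.coeff c ∨
        Polynomial.sylvester f g p q i j = g.coeff c) := by
  induction j using Fin.addCases with
  | left j =>
    simp only [Polynomial.sylvester, Matrix.of_apply, Fin.addCases_left]
    split_ifs
    · exact Or.inr ⟨_, Nat.sub_le _ _, Or.inr rfl⟩
    · exact Or.inl rfl
  | right j =>
    simp only [Polynomial.sylvester, Matrix.of_apply, Fin.addCases_right]
    split_ifs
    · exact Or.inr ⟨_, Nat.sub_le _ _, Or.inl rfl⟩
    · exact Or.inl rfl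

lemma res_ne_zero [IsDomain D] {f g : Polynomial D} (hf : Prime f) (hg : ¬ f ∣ g) :
    f.resultant g ≠ 0 := by
  intro h
  obtain ⟨u, hu, hu0⟩ := Matrix.exists_mulVec_eq_zero_iff.2 h
  set b := ((Polynomial.degreeLT.basis D f.natDegree).prod
    (Polynomial.degreeLT.basis D g.natDegree)).reindex finSumFinEquiv
  set z := b.equivFun.symm u with hz
  have h1 : b.repr z = u := by
    rw [← Module.Basis.equivFun_apply, hz, LinearEquiv.apply_symm_apply]
  have h2 := LinearMap.toMatrix_mulVec_repr b (Polynomial.degreeLT.basis D _)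
    (Polynomial.sylvesterMap f g le_rfl le_rfl) z
  rw [Polynomial.toMatrix_sylvesterMap', h1, hu0] at h2
  have h3 : Polynomial.sylvesterMap f g le_rfl le_rfl z = 0 := by
    rw [← (Polynomial.degreeLT.basis D _).repr.map_eq_zero_iff]
    exact DFunLike.coe_injective h2.symm
  have h4 : f * z.2 + g * z.1 = 0 := congrArg Subtype.val h3
  have h5 : f ∣ g * z.1 := ⟨-z.2, by linear_combination h4⟩
  have h6 : (z.1 : Polynomial D) = 0 := by
    refine Polynomial.eq_zero_of_dvd_of_degree_lt ((hf.dvd_or_dvd h5).resolve_left hg) ?_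
    rw [Polynomial.degree_eq_natDegree hf.ne_zero]
    exact Polynomial.mem_degreeLT.1 z.1.2
  have h7 : (z.2 : Polynomial D) = 0 := by
    rw [h6, mul_zero, add_zero] at h4
    exact (mul_eq_zero.1 h4).resolve_left hf.ne_zero
  have h8 : z = 0 := Prod.ext (Subtype.ext h6) (Subtype.ext h7)
  apply hu
  rw [← h1, h8]; simp

end det

variable {L : Type*} [Field L] {ι ι' : Type*}

lemma l1_det (v : AbsoluteValue L ℝ) {k : ℕ} (M : Matrix (Fin k) (Fin k) (MvPolynomial ι L))
    {B : ℝ} (hB : 0 ≤ B) (h : ∀ i j, l1 v (M i j) ≤ B) : l1 v M.det ≤ (2 ^ k * B) ^ k := by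
  rw [Matrix.det_apply]
  refine (l1_sum _ _ _).trans ?_
  have h1 : ∀ σ ∈ (Finset.univ : Finset (Equiv.Perm (Fin k))),
      l1 v (Equiv.Perm.sign σ • ∏ i, M (σ i) i) ≤ B ^ k := fun σ _ => by
    have h2 := prod_filt (A := ℕ) (fun (f : MvPolynomial ι L) a => l1 v f ≤ B ^ a)
      (by simp [l1_one]) (fun f g a b hf hg => (l1_mul v f g).trans (by
        rw [pow_add]; exact mul_le_mul hf hg (l1_nonneg _ _) (pow_nonneg hB _)))
      Finset.univ (fun i => M (σ i) i) (fun _ => 1) fun i _ => by simpa using h _ _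
    simp only [Finset.sum_const, Finset.card_univ, Fintype.card_fin, smul_eq_mul, mul_one] at h2
    rcases Int.units_eq_one_or (Equiv.Perm.sign σ) with h3 | h3 <;> rw [h3]
    · simpa using h2
    · simpa [l1_neg] using h2
  refine (Finset.sum_le_card_nsmul _ _ _ h1).trans ?_
  rw [Finset.card_univ, Fintype.card_perm, Fintype.card_fin, nsmul_eq_mul, mul_pow]
  refine mul_le_mul_of_nonneg_right ?_ (pow_nonneg hB _)
  exact_mod_cast (Nat.factorial_le_pow k).trans (Nat.pow_le_pow_left Nat.lt_two_pow_self.le k)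

lemma nv_det {v : AbsoluteValue L ℝ} (hv : IsNonarchimedean v) {k : ℕ}
    (M : Matrix (Fin k) (Fin k) (MvPolynomial ι L))
    {B : ℝ} (hB : 0 ≤ B) (h : ∀ i j, nv v (M i j) ≤ B) : nv v M.det ≤ B ^ k := by
  have h2 := det_filt (A := ℕ) (fun (f : MvPolynomial ι L) a => nv v f ≤ B ^ a)
    (fun a => by rw [nv_zero]; exact pow_nonneg hB _) (by simpa using nv_one_le v)
    (fun f g a b hf hg => (nv_mul_le hv f g).trans (by
      rw [pow_add]; exact mul_le_mul hf hg (nv_nonneg _ _) (pow_nonneg hB _)))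
    (fun f g a hf hg => (nv_add_le hv f g).trans (max_le hf hg))
    (fun f a hf => by rwa [nv_neg]) M (fun _ => 1) fun i j => by simpa using h i j
  simpa using h2

lemma deg_det (a : ι) {k : ℕ} (M : Matrix (Fin k) (Fin k) (MvPolynomial ι L))
    {B : ℕ} (h : ∀ i j, degreeOf a (M i j) ≤ B) : degreeOf a M.det ≤ k * B := by
  have h2 := det_filt (A := ℕ) (fun (f : MvPolynomial ι L) b => degreeOf a f ≤ b)
    (fun a => by simp) (by simp)
    (fun f g a b hf hg => (degreeOf_mul_le _ f g).trans (add_le_add hf hg))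
    (fun f g a hf hg => (degreeOf_add_le _ f g).trans (max_le hf hg))
    (fun f a hf => by rwa [degreeOf_neg]) M (fun _ => B) h
  simpa using h2

/-- Every monomial has weight at least `t`. -/
def OrdGE (w : ι → ℕ) (P : MvPolynomial ι L) (t : ℝ) : Prop :=
  ∀ J, coeff J P ≠ 0 → t ≤ (Finsupp.weight w J : ℕ)

lemma OrdGE.mono {w : ι → ℕ} {P : MvPolynomial ι L} {s t : ℝ} (h : OrdGE w P t) (hs : s ≤ t) :
    OrdGE w P s := fun J hJ => hs.trans (h J hJ)

lemma ord_det (w : ι → ℕ) {k : ℕ} (M : Matrix (Fin k) (Fin k) (MvPolynomial ι L))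
    (t : Fin k → ℝ) (h : ∀ i j, OrdGE w (M i j) (t i)) : OrdGE w M.det (∑ i, t i) := by
  classical
  refine det_filt (A := ℝ) (OrdGE w) (fun a J hJ => absurd (coeff_zero J) hJ)
    (fun J _ => Nat.cast_nonneg _) (fun f g a b hf hg J hJ => ?_) (fun f g a hf hg J hJ => ?_)
    (fun f a hf J hJ => hf J fun h1 => hJ (by rw [coeff_neg, h1, neg_zero])) M t h
  · rw [coeff_mul] at hJ
    obtain ⟨p, hp, h1⟩ := Finset.exists_ne_zero_of_sum_ne_zero hJ
    rw [← Finset.HasAntidiagonal.mem_antidiagonal.1 hp, map_add, Nat.cast_add]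
    exact add_le_add (hf _ (left_ne_zero_of_mul h1)) (hg _ (right_ne_zero_of_mul h1))
  · by_cases h1 : coeff J f = 0
    · exact hg J fun h2 => hJ (by rw [coeff_add, h1, h2, add_zero])
    · exact hf J h1

/-- Translation of the variables by a point. -/
noncomputable def sh (x : ι → L) : MvPolynomial ι L →ₐ[L] MvPolynomial ι L :=
  aeval fun a => X a + C (x a)

lemma sh_injective (x : ι → L) : Function.Injective (sh x) := by
  have h : (sh (-x)).comp (sh x) = AlgHom.id L _ := by
    ext a : 1; simp [sh]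
  exact Function.LeftInverse.injective (g := sh (-x)) fun P => AlgHom.congr_fun h P

lemma sh_pderiv (x : ι → L) (a : ι) (P : MvPolynomial ι L) :
    sh x (pderiv a P) = pderiv a (sh x P) := by
  classical
  induction P using MvPolynomial.induction_on with
  | C r => simp [sh]
  | add p q hp hq => simp [hp, hq]
  | mul_X p b hp =>
    have h1 : sh x (X b) = X b + C (x b) := by simp [sh]
    have h2 : sh x (pderiv a (X b)) = pderiv a (X b) := by
      by_cases h : b = a
      · subst h; simp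
      · simp [pderiv_X_of_ne h]
    rw [pderiv_mul, map_add, map_mul, map_mul, map_mul, pderiv_mul, hp, h1, h2]
    simp

lemma sh_rename (x : ι' → L) (f : ι → ι') (P : MvPolynomial ι L) :
    sh x (rename f P) = rename f (sh (x ∘ f) P) := by
  have h : (sh x).comp (rename f) = (rename f).comp (sh (x ∘ f)) := by
    ext a : 1; simp [sh]
  exact AlgHom.congr_fun h P

lemma coeff_zero_sh (x : ι → L) (P : MvPolynomial ι L) : coeff 0 (sh x P) = eval x P := by
  rw [← constantCoeff_eq]
  induction P using MvPolynomial.induction_on with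
  | C r => simp [sh]
  | add p q hp hq => simp only [map_add, hp, hq]
  | mul_X p b hp => simp only [map_mul, hp]; simp [sh]

lemma OrdGE.pderiv {w : ι → ℕ} {P : MvPolynomial ι L} {t : ℝ} (h : OrdGE w P t) (a : ι) :
    OrdGE w (pderiv a P) (t - w a) := fun J hJ => by
  rw [coeff_pderiv] at hJ
  have := h _ (left_ne_zero_of_mul hJ)
  rw [map_add, Finsupp.weight_single, Nat.cast_add] at this
  simp only [smul_eq_mul, one_mul] at this
  linarith

lemma OrdGE.rename {w : ι' → ℕ} (f : ι → ι') {P : MvPolynomial ι L} {t : ℝ}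
    (h : OrdGE (w ∘ f) P t) : OrdGE w (rename f P) t := fun J hJ => by
  obtain ⟨u, rfl, hu⟩ := coeff_rename_ne_zero f P J hJ
  refine (h u hu).trans (le_of_eq ?_)
  rw [Finsupp.weight_apply, Finsupp.weight_apply, Finsupp.sum_mapDomain_index (by simp)
    (by simp [add_mul])]
  rfl

lemma fse_sh {n : ℕ} (x : Fin (n + 1) → L) (P : MvPolynomial (Fin (n + 1)) L) :
    finSuccEquiv L n (sh x P) = Polynomial.taylor (C (x 0))
      ((finSuccEquiv L n P).map (sh (x ∘ Fin.succ)).toRingHom) := by
  induction P using MvPolynomial.induction_on with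
  | C r => simp [sh, finSuccEquiv_apply]
  | add p q hp hq => simp only [map_add, Polynomial.map_add, hp, hq]
  | mul_X p b hp =>
    simp only [map_mul, Polynomial.map_mul, Polynomial.taylor_mul, hp]
    congr 1
    refine Fin.cases ?_ (fun j => ?_) b
    · simp [sh, finSuccEquiv_apply]
    · simp [sh, finSuccEquiv_apply]

lemma OrdGE.fse {n : ℕ} {w : Fin (n + 1) → ℕ} {P : MvPolynomial (Fin (n + 1)) L} {t : ℝ}
    (h : OrdGE w P t) (c : ℕ) :
    OrdGE (w ∘ Fin.succ) ((finSuccEquiv L n P).coeff c) (t - c * w 0) := fun J hJ => by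
  rw [finSuccEquiv_coeff_coeff] at hJ
  have := h _ hJ
  rw [Finsupp.weight_eq_sum, Fin.sum_univ_succ] at this
  rw [Finsupp.weight_eq_sum]
  simp only [Finsupp.cons_zero, Finsupp.cons_succ, smul_eq_mul, Function.comp] at this ⊢
  push_cast at this ⊢
  linarith

/-- The order of the resultant at the projected point. -/
lemma ord_res {n : ℕ} {w : Fin (n + 1) → ℕ} (x : Fin (n + 1) → L)
    {G H : MvPolynomial (Fin (n + 1)) L} {t : ℝ} (hG : OrdGE w (sh x G) t)
    (hH : OrdGE w (sh x H) t) :
    OrdGE (w ∘ Fin.succ) (sh (x ∘ Fin.succ)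
      ((finSuccEquiv L n G).resultant (finSuccEquiv L n H)))
      (∑ i : Fin (degreeOf 0 G + degreeOf 0 H), max (t - (i : ℕ) * w 0) 0) := by
  have e1 : ∀ P : MvPolynomial (Fin (n + 1)) L,
      ((finSuccEquiv L n P).map (sh (x ∘ Fin.succ)).toRingHom).natDegree = degreeOf 0 P :=
    fun P => by
      rw [Polynomial.natDegree_map_eq_of_injective (sh_injective _), natDegree_finSuccEquiv]
  have e2 : sh (x ∘ Fin.succ) ((finSuccEquiv L n G).resultant (finSuccEquiv L n H)) =
      (Polynomial.sylvester (finSuccEquiv L n (sh x G)) (finSuccEquiv L n (sh x H))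
        (degreeOf 0 G) (degreeOf 0 H)).det := by
    have h1 := Polynomial.resultant_taylor
      ((finSuccEquiv L n G).map (sh (x ∘ Fin.succ)).toRingHom)
      ((finSuccEquiv L n H).map (sh (x ∘ Fin.succ)).toRingHom) (C (x 0))
    rw [Polynomial.natDegree_taylor, Polynomial.natDegree_taylor, e1, e1, ← fse_sh, ← fse_sh,
      Polynomial.resultant_map_map] at h1
    rw [natDegree_finSuccEquiv, natDegree_finSuccEquiv]
    exact h1.symm
  rw [e2]
  refine ord_det _ _ _ fun i j J hJ => max_le ?_ (Nat.cast_nonneg _)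
  have hw : ∀ c : ℕ, c ≤ i → t - ((i : ℕ) : ℝ) * w 0 ≤ t - c * w 0 := fun c hc => by
    have : (c : ℝ) ≤ (i : ℕ) := by exact_mod_cast hc
    nlinarith [Nat.cast_nonneg (α := ℝ) (w 0)]
  rcases sylv_entry (finSuccEquiv L n (sh x G)) (finSuccEquiv L n (sh x H)) _ _ i j with
    h | ⟨c, hc, h | h⟩ <;> rw [h] at hJ
  · exact absurd (coeff_zero J) hJ
  · exact (hw c hc).trans (hG.fse c J hJ)
  · exact (hw c hc).trans (hH.fse c J hJ)

end D4P91
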